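import Mathlib

/-!
# MP_4ccb00_al, part (e): definitions

`F` is any group (in the applications a free group of finite rank), `R, N, A, D` are subgroups.

* `YY p A R D`: the functions `F → ZMod p` which vanish outside `R`, are additive on `R`,
  invariant under conjugation by the elements of `A`, and vanish on `R ⊓ D`.
  So `YY p ⊤ R ⊥` is the space of all `F`-invariant homomorphisms `R → F_p`
  (the dual of `R / [R,F] R^p`).
* `DLE Y k`: the space `Y` is finite dimensional, of dimension at most `k`.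
* `PhiP p N = [N,N] N^p`.
* `AltInv p N R`: the `F`-invariant alternating bi-additive maps on `N` with values in `ZMod p`
  which vanish if one argument is in `R`.
-/

namespace Pool.Agent.Lib.MP4ccb00.E

/-- Homomorphisms `R → ZMod p`, invariant under `A`, zero on `R ⊓ D`, extended by zero to `F`. -/
def YY (p : ℕ) {F : Type} [Group F] (A R D : Subgroup F) : Submodule (ZMod p) (F → ZMod p) where
  carrier := {φ | (∀ x, x ∉ R → φ x = 0) ∧ (∀ x ∈ R, ∀ y ∈ R, φ (x * y) = φ x + φ y) ∧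
    (∀ g ∈ A, ∀ x ∈ R, φ (g * x * g⁻¹) = φ x) ∧ (∀ x ∈ R, x ∈ D → φ x = 0)}
  zero_mem' := by
    refine ⟨?_, ?_, ?_, ?_⟩ <;> intros <;> simp
  add_mem' := by
    rintro φ ψ ⟨h1, h2, h3, h4⟩ ⟨k1, k2, k3, k4⟩
    refine ⟨?_, ?_, ?_, ?_⟩
    · intro x hx
      simp [h1 x hx, k1 x hx]
    · intro x hx y hy
      simp only [Pi.add_apply, h2 x hx y hy, k2 x hx y hy]
      abel
    · intro g hg x hx
      simp [h3 g hg x hx, k3 g hg x hx]
    · intro x hx hd
      simp [h4 x hx hd, k4 x hx hd]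
  smul_mem' := by
    rintro c φ ⟨h1, h2, h3, h4⟩
    refine ⟨?_, ?_, ?_, ?_⟩
    · intro x hx
      simp [h1 x hx]
    · intro x hx y hy
      simp only [Pi.smul_apply, h2 x hx y hy, smul_add]
    · intro g hg x hx
      simp [h3 g hg x hx]
    · intro x hx hd
      simp [h4 x hx hd]

/-- `Y` has dimension at most `k`. -/
def DLE {p : ℕ} [Fact p.Prime] {V : Type} [AddCommGroup V] [Module (ZMod p) V]
    (Y : Submodule (ZMod p) V) (k : ℕ) : Prop :=
  Module.Finite (ZMod p) Y ∧ Module.finrank (ZMod p) Y ≤ k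

/-- `[N,N] N^p`. -/
def PhiP (p : ℕ) {F : Type} [Group F] (N : Subgroup F) : Subgroup F :=
  ⁅N, N⁆ ⊔ Subgroup.closure {x | ∃ y ∈ N, x = y ^ p}

/-- `F`-invariant alternating bi-additive maps on `N`, zero if one argument is in `R`
(extended by zero). -/
def AltInv (p : ℕ) {F : Type} [Group F] (N R : Subgroup F) :
    Submodule (ZMod p) (F → F → ZMod p) where
  carrier := {β | (∀ x y, (x ∉ N ∨ y ∉ N) → β x y = 0) ∧
    (∀ x ∈ N, ∀ x' ∈ N, ∀ y ∈ N, β (x * x') y = β x y + β x' y) ∧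
    (∀ x ∈ N, ∀ y ∈ N, ∀ y' ∈ N, β x (y * y') = β x y + β x y') ∧
    (∀ x ∈ N, β x x = 0) ∧ (∀ x ∈ N, ∀ y ∈ N, x ∈ R → β x y = 0) ∧
    (∀ g, ∀ x ∈ N, ∀ y ∈ N, β (g * x * g⁻¹) (g * y * g⁻¹) = β x y)}
  zero_mem' := by
    refine ⟨?_, ?_, ?_, ?_, ?_, ?_⟩ <;> intros <;> simp
  add_mem' := by
    rintro β γ ⟨h1, h2, h3, h4, h5, h6⟩ ⟨k1, k2, k3, k4, k5, k6⟩
    refine ⟨?_, ?_, ?_, ?_, ?_, ?_⟩
    · intro x y h
      simp [h1 x y h, k1 x y h]
    · intro x hx x' hx' y hy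
      simp only [Pi.add_apply, h2 x hx x' hx' y hy, k2 x hx x' hx' y hy]
      abel
    · intro x hx y hy y' hy'
      simp only [Pi.add_apply, h3 x hx y hy y' hy', k3 x hx y hy y' hy']
      abel
    · intro x hx
      simp [h4 x hx, k4 x hx]
    · intro x hx y hy hr
      simp [h5 x hx y hy hr, k5 x hx y hy hr]
    · intro g x hx y hy
      simp [h6 g x hx y hy, k6 g x hx y hy]
  smul_mem' := by
    rintro c β ⟨h1, h2, h3, h4, h5, h6⟩
    refine ⟨?_, ?_, ?_, ?_, ?_, ?_⟩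
    · intro x y h
      simp [h1 x y h]
    · intro x hx x' hx' y hy
      simp only [Pi.smul_apply, h2 x hx x' hx' y hy, smul_add]
    · intro x hx y hy y' hy'
      simp only [Pi.smul_apply, h3 x hx y hy y' hy', smul_add]
    · intro x hx
      simp [h4 x hx]
    · intro x hx y hy hr
      simp [h5 x hx y hy hr]
    · intro g x hx y hy
      simp [h6 g x hx y hy]

/-- The subgroup generated by the values of a finite family. -/
def gen {F : Type} [Group F] {s : ℕ} (h : Fin s → F) : Subgroup F :=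
  Subgroup.closure (Set.range h)

/-- The normal subgroups `R'` of index `p^n` below `R` for which some lift `h'` (modulo `R'`) of
`h` modulo `R` generates a group `H'` with `[N,N] ≤ [H',H'] R'`; here
`|[N,N] ∩ R : [N,N] ∩ R'| = p^c` and `|N : Φ(N)R'| ≤ p^v`. -/
def TT (p : ℕ) {F : Type} [Group F] (N R : Subgroup F) {s : ℕ} (h : Fin s → F) (n c v : ℕ) :
    Set (Subgroup F) :=
  {R' | R'.Normal ∧ R' ≤ R ∧ R'.index = p ^ n ∧
    (⁅N, N⁆ ⊓ R').relIndex (⁅N, N⁆ ⊓ R) = p ^ c ∧ (PhiP p N ⊔ R').relIndex N ≤ p ^ v ∧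
    ∃ h' : Fin s → F, (∀ j, (h j)⁻¹ * h' j ∈ R) ∧ ⁅N, N⁆ ≤ ⁅gen h', gen h'⁆ ⊔ R'}

end Pool.Agent.Lib.MP4ccb00.E
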