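import Pool.Agent.Lib.MP_4ccb00_al.E.Spec

/-!
# MP_4ccb00_al, part (e), module INV: invariant alternating forms
-/

set_option autoImplicit false

namespace Pool.Agent.Lib.MP4ccb00.E

open scoped commutatorElement

namespace INVM

/-! ## Linear algebra -/

theorem dim_le {K V V' : Type} [Field K] [AddCommGroup V] [Module K V] [AddCommGroup V']
    [Module K V'] (A B : Submodule K V) (f : A →ₗ[K] V') (Y : Submodule K V')
    (hf : ∀ a, f a ∈ Y) (hY : Module.Finite K Y) (hB : ∀ a : A, f a = 0 → (a : V) ∈ B)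
    (hBf : Module.Finite K B) :
    Module.Finite K A ∧
      Module.finrank K A ≤ Module.finrank K B + Module.finrank K (LinearMap.range f) ∧
      Module.Finite K (LinearMap.range f) ∧
      Module.finrank K (LinearMap.range f) ≤ Module.finrank K Y := by
  let j : LinearMap.ker f →ₗ[K] B :=
    { toFun := fun a => ⟨(a.1 : V), hB a.1 a.2⟩
      map_add' := fun _ _ => rfl
      map_smul' := fun _ _ => rfl }
  have hj : Function.Injective j := by
    intro a b hab
    have : ((a.1 : A) : V) = b.1 := congrArg (fun x : B => (x : V)) hab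
    exact Subtype.ext (Subtype.ext this)
  have hk : Module.Finite K (LinearMap.ker f) := Module.Finite.of_injective j hj
  have hr : LinearMap.range f ≤ Y := by
    rintro _ ⟨a, rfl⟩
    exact hf a
  have hrf : Module.Finite K (LinearMap.range f) :=
    Module.Finite.of_injective (Submodule.inclusion hr) (Submodule.inclusion_injective hr)
  have : Module.Finite K (A ⧸ LinearMap.ker f) :=
    Module.Finite.equiv (LinearMap.quotKerEquivRange f).symm
  have hA : Module.Finite K A := Module.Finite.of_submodule_quotient (LinearMap.ker f)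
  refine ⟨hA, ?_, hrf, ?_⟩
  · have h1 := LinearMap.finrank_range_add_finrank_ker f
    have h2 : Module.finrank K (LinearMap.ker f) ≤ Module.finrank K B :=
      LinearMap.finrank_le_finrank_of_injective hj
    omega
  · exact LinearMap.finrank_le_finrank_of_injective (Submodule.inclusion_injective hr)

theorem range_le {K V V' V'' : Type} [Field K] [AddCommGroup V] [Module K V] [AddCommGroup V']
    [Module K V'] [AddCommGroup V''] [Module K V''] (f : V →ₗ[K] V') (g : V →ₗ[K] V'')
    (h : LinearMap.ker g ≤ LinearMap.ker f) (hg : Module.Finite K (LinearMap.range g)) :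
    Module.finrank K (LinearMap.range f) ≤ Module.finrank K (LinearMap.range g) := by
  have : Module.Finite K (V ⧸ LinearMap.ker g) :=
    Module.Finite.equiv (LinearMap.quotKerEquivRange g).symm
  let q : (V ⧸ LinearMap.ker g) →ₗ[K] (V ⧸ LinearMap.ker f) :=
    Submodule.mapQ _ _ LinearMap.id (by simpa using h)
  have hq : Function.Surjective q := by
    intro y
    obtain ⟨x, rfl⟩ := Submodule.Quotient.mk_surjective _ y
    exact ⟨Submodule.Quotient.mk x, rfl⟩
  rw [← (LinearMap.quotKerEquivRange f).finrank_eq, ← (LinearMap.quotKerEquivRange g).finrank_eq]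
  exact LinearMap.finrank_le_finrank_of_surjective hq

/-! ## Groups -/

variable {F : Type} [Group F]

/-- `R ⊔ ⟨z⟩` is normal if `z` is central modulo `R`. -/
theorem normal_sup {R : Subgroup F} (hR : R.Normal) {z : F} (hz : ∀ g, ⁅z, g⁆ ∈ R) :
    (R ⊔ Subgroup.zpowers z).Normal := by
  refine ⟨fun n hn y => ?_⟩
  obtain ⟨r, hr, t, ht, rfl⟩ := (Subgroup.mem_sup_of_normal_left).1 hn
  obtain ⟨k, rfl⟩ := Subgroup.mem_zpowers_iff.1 ht
  have h1 : y * z * y⁻¹ ∈ R ⊔ Subgroup.zpowers z := by
    have h2 : y * z * y⁻¹ = (⁅z, y⁆)⁻¹ * z := by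
      rw [commutatorElement_def]
      group
    rw [h2]
    exact mul_mem (Subgroup.mem_sup_left (inv_mem (hz y)))
      (Subgroup.mem_sup_right (Subgroup.mem_zpowers z))
  have h3 : y * (r * z ^ k) * y⁻¹ = (y * r * y⁻¹) * (y * z * y⁻¹) ^ k := by
    rw [conj_zpow]
    group
  rw [h3]
  exact mul_mem (Subgroup.mem_sup_left (hR.conj_mem r hr y)) (zpow_mem h1 k)

theorem relIndex_sup {p : ℕ} [hp : Fact p.Prime] {R : Subgroup F} (hR : R.Normal) {z : F}
    (hz : z ∉ R) (hzp : z ^ p ∈ R) : R.relIndex (R ⊔ Subgroup.zpowers z) = p := by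
  rw [sup_comm, Subgroup.relIndex_sup_right]
  have h1 := Subgroup.relIndex_ker (Subgroup.zpowers z) (QuotientGroup.mk' R)
  rw [QuotientGroup.ker_mk', MonoidHom.map_zpowers, Nat.card_zpowers] at h1
  rw [h1]
  refine orderOf_eq_prime ?_ ?_
  · rw [← map_pow]
    exact (QuotientGroup.eq_one_iff _).2 hzp
  · intro h
    exact hz ((QuotientGroup.eq_one_iff _).1 h)

/-- the subgroup of the elements central modulo `R` -/
def cenMod (N R : Subgroup F) (hR : R.Normal) : Subgroup F where
  carrier := {x | x ∈ N ∧ ∀ g, ⁅x, g⁆ ∈ R}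
  one_mem' := ⟨one_mem _, fun g => by simp⟩
  mul_mem' := by
    rintro x y ⟨hx, hx'⟩ ⟨hy, hy'⟩
    refine ⟨mul_mem hx hy, fun g => ?_⟩
    have h1 : ⁅x * y, g⁆ = (x * ⁅y, g⁆ * x⁻¹) * ⁅x, g⁆ := by
      simp only [commutatorElement_def]
      group
    rw [h1]
    exact mul_mem (hR.conj_mem _ (hy' g) x) (hx' g)
  inv_mem' := by
    rintro x ⟨hx, hx'⟩
    refine ⟨inv_mem hx, fun g => ?_⟩
    have h1 : ⁅x⁻¹, g⁆ = x⁻¹ * (⁅x, g⁆)⁻¹ * x⁻¹⁻¹ := by
      simp only [commutatorElement_def]
      group
    rw [h1]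
    exact hR.conj_mem _ (inv_mem (hx' g)) x⁻¹

theorem cenMod_normal {N R : Subgroup F} (hN : N.Normal) (hR : R.Normal) :
    (cenMod N R hR).Normal := by
  refine ⟨fun x hx y => ⟨hN.conj_mem x hx.1 y, fun g => ?_⟩⟩
  have h1 : ⁅y * x * y⁻¹, g⁆ = y * ⁅x, y⁻¹ * g * y⁆ * y⁻¹ := by
    simp only [commutatorElement_def]
    group
  rw [h1]
  exact hR.conj_mem _ (hx.2 _) y

theorem le_cenMod {N R : Subgroup F} (hR : R.Normal) (h : R ≤ N) : R ≤ cenMod N R hR := by
  intro r hr
  refine ⟨h hr, fun g => ?_⟩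
  rw [commutatorElement_def, mul_assoc, mul_assoc, ← mul_assoc g]
  exact mul_mem hr (hR.conj_mem _ (inv_mem hr) g)

/-! ## Forms -/

section Forms

variable {p : ℕ} {N R : Subgroup F} {β : F → F → ZMod p}

theorem add_left (h : β ∈ AltInv p N R) {x x' y : F} (hx : x ∈ N) (hx' : x' ∈ N) (hy : y ∈ N) :
    β (x * x') y = β x y + β x' y := h.2.1 x hx x' hx' y hy

theorem add_right (h : β ∈ AltInv p N R) {x y y' : F} (hx : x ∈ N) (hy : y ∈ N) (hy' : y' ∈ N) :
    β x (y * y') = β x y + β x y' := h.2.2.1 x hx y hy y' hy'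

theorem anti (h : β ∈ AltInv p N R) {x y : F} (hx : x ∈ N) (hy : y ∈ N) : β x y = -β y x := by
  have h1 := h.2.2.2.1 (x * y) (mul_mem hx hy)
  rw [add_left h hx hy (mul_mem hx hy), add_right h hx hx hy, add_right h hy hx hy,
    h.2.2.2.1 x hx, h.2.2.2.1 y hy, zero_add, add_zero] at h1
  exact eq_neg_of_add_eq_zero_left h1

theorem zero_left (h : β ∈ AltInv p N R) {x y : F} (hR : R ≤ N) (hx : x ∈ R) (hy : y ∈ N) :
    β x y = 0 := h.2.2.2.2.1 x (hR hx) y hy hx

theorem zero_right (h : β ∈ AltInv p N R) {x y : F} (hR : R ≤ N) (hx : x ∈ N) (hy : y ∈ R) :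
    β x y = 0 := by
  rw [anti h hx (hR hy), zero_left h hR hy hx, neg_zero]

theorem inv_conj (h : β ∈ AltInv p N R) (g : F) {x y : F} (hx : x ∈ N) (hy : y ∈ N) :
    β (g * x * g⁻¹) (g * y * g⁻¹) = β x y := h.2.2.2.2.2 g x hx y hy

/-- the elements `y` of `N` with `β x y = 0` -/
def perp (h : β ∈ AltInv p N R) {x : F} (hx : x ∈ N) : Subgroup F where
  carrier := {y | y ∈ N ∧ β x y = 0}
  one_mem' := by
    refine ⟨one_mem _, ?_⟩
    have h1 := add_right h hx (one_mem N) (one_mem N)
    rw [mul_one] at h1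
    exact left_eq_add.1 h1
  mul_mem' := by
    rintro y y' ⟨hy, h1⟩ ⟨hy', h2⟩
    refine ⟨mul_mem hy hy', ?_⟩
    rw [add_right h hx hy hy', h1, h2, add_zero]
  inv_mem' := by
    rintro y ⟨hy, h1⟩
    refine ⟨inv_mem hy, ?_⟩
    have h2 := add_right h hx (one_mem N) (one_mem N)
    rw [mul_one] at h2
    have h3 := add_right h hx hy (inv_mem hy)
    rw [mul_inv_cancel, left_eq_add.1 h2, h1, zero_add] at h3
    exact h3.symm

theorem one_right (h : β ∈ AltInv p N R) {x : F} (hx : x ∈ N) : β x 1 = 0 :=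
  ((perp h hx).one_mem).2

theorem inv_right (h : β ∈ AltInv p N R) {x y : F} (hx : x ∈ N) (hy : y ∈ N) :
    β x y⁻¹ = -β x y := by
  have h3 := add_right h hx hy (inv_mem hy)
  rw [mul_inv_cancel, one_right h hx] at h3
  exact (neg_eq_of_add_eq_zero_right h3.symm).symm

end Forms

end INVM

open INVM

theorem specINV (hCEN : SpecCEN) (hGEN : SpecGEN) (hHOM : SpecHOM) : SpecINV := by
  intro p hp F _ N R v δ hN hR hRN hm hPhi hv hδ
  classical
  have hp2 : 1 < p := hp.out.one_lt
  -- the claim
  have claim : ∀ (τ : ℕ) (R : Subgroup F), R.Normal → R ≤ N → (∃ m, R.index = p ^ m) →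
      PhiP p N ≤ R → (⁅N, ⊤⁆ ⊔ R).relIndex N = p ^ δ → R.relIndex (⁅N, ⊤⁆ ⊔ R) = p ^ τ →
      Module.Finite (ZMod p) (AltInv p N R) ∧
        2 * Module.finrank (ZMod p) (AltInv p N R) + δ ≤ δ ^ 2 + τ ^ 2 + min δ τ := by
    intro τ
    induction τ with
    | zero =>
      intro R hR hRN hm hPhi hδ hτ
      rw [pow_zero, Subgroup.relIndex_eq_one] at hτ
      have hQ : ⁅N, ⊤⁆ ⊔ R = R := le_antisymm hτ le_sup_right
      rw [hQ] at hδ
      -- generators
      obtain ⟨x, hx⟩ := hGEN p N (R.subgroupOf N) δ hδ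
      let S : Type := Σ i : Fin δ, Fin i.1
      let f : AltInv p N R →ₗ[ZMod p] (S → ZMod p) :=
        { toFun := fun β s => β.1 (x s.1).1 (x ⟨s.2.1, s.2.2.trans s.1.2⟩).1
          map_add' := fun _ _ => rfl
          map_smul' := fun _ _ => rfl }
      have hf : Function.Injective f := by
        rw [injective_iff_map_eq_zero]
        rintro ⟨β, hβ⟩ h0
        have hij : ∀ i j : Fin δ, β (x i).1 (x j).1 = 0 := by
          intro i j
          rcases lt_trichotomy i j with h | h | h
          · rw [anti hβ (x i).2 (x j).2]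
            have := congrFun h0 (⟨j, ⟨i.1, h⟩⟩ : S)
            have h1 : β (x j).1 (x i).1 = 0 := this
            rw [h1, neg_zero]
          · subst h
            exact hβ.2.2.2.1 _ (x i).2
          · exact congrFun h0 (⟨i, ⟨j.1, h⟩⟩ : S)
        have hgen : ∀ y ∈ N, ∀ K : Subgroup F, R ≤ K → (∀ i, (x i).1 ∈ K) → y ∈ K := by
          intro y hy K hRK hxK
          have h1 : gen x ⊔ R.subgroupOf N ≤ K.subgroupOf N := by
            refine sup_le ?_ ?_
            · rw [gen, Subgroup.closure_le]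
              rintro _ ⟨i, rfl⟩
              exact hxK i
            · intro z hz
              exact hRK hz
          rw [hx] at h1
          exact h1 (Subgroup.mem_top (⟨y, hy⟩ : N))
        apply Subtype.ext
        funext y z
        by_cases hyz : y ∉ N ∨ z ∉ N
        · exact hβ.1 y z hyz
        push Not at hyz
        obtain ⟨hy, hz⟩ := hyz
        have h1 : ∀ i, ∀ z ∈ N, β (x i).1 z = 0 := by
          intro i z hz
          exact (hgen z hz (perp hβ (x i).2)
            (fun r hr => ⟨hRN hr, zero_right hβ hRN (x i).2 hr⟩)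
            (fun j => ⟨(x j).2, hij i j⟩)).2
        have h2 := (hgen y hy (perp hβ hz)
            (fun r hr => ⟨hRN hr, zero_right hβ hRN hz hr⟩)
            (fun j => ⟨(x j).2, by rw [anti hβ hz (x j).2, h1 j z hz, neg_zero]⟩)).2
        change β y z = 0
        rw [anti hβ hy hz, h2, neg_zero]
      refine ⟨Module.Finite.of_injective f hf, ?_⟩
      have h1 : Module.finrank (ZMod p) (AltInv p N R) ≤ Fintype.card S := by
        have := LinearMap.finrank_le_finrank_of_injective hf
        rwa [Module.finrank_fintype_fun_eq_card] at this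
      have h2 : Fintype.card S * 2 = δ * (δ - 1) := by
        rw [Fintype.card_sigma]
        simp only [Fintype.card_fin]
        rw [Fin.sum_univ_eq_sum_range (fun i => i) δ, Finset.sum_range_id_mul_two]
      have h3 : δ * (δ - 1) + δ = δ ^ 2 := by
        rcases δ with _ | d
        · rfl
        · simp only [Nat.add_sub_cancel]
          ring
      have h4 : (0 : ℕ) ^ 2 = 0 := rfl
      rw [h4]
      omega
    | succ τ ih =>
      intro R hR hRN hm hPhi hδ hτ
      set Q : Subgroup F := ⁅N, ⊤⁆ ⊔ R with hQ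
      have hCN : ⁅N, (⊤ : Subgroup F)⁆ ≤ N := Subgroup.commutator_le_left N ⊤
      have hQN : Q ≤ N := sup_le hCN hRN
      -- the central element modulo the centre
      have hZN : cenMod N R hR < N := by
        refine lt_of_le_of_ne (fun x hx => hx.1) fun h => ?_
        have h1 : ⁅N, (⊤ : Subgroup F)⁆ ≤ R := by
          rw [Subgroup.commutator_le]
          intro x hx g _
          rw [← h] at hx
          exact hx.2 g
        have h2 : Q = R := le_antisymm (sup_le h1 le_rfl) le_sup_right
        rw [h2, Subgroup.relIndex_self] at hτ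
        have h3 := Nat.one_lt_pow (Nat.succ_ne_zero τ) hp2
        rw [Nat.succ_eq_add_one, ← hτ] at h3
        exact absurd h3 (lt_irrefl 1)
      obtain ⟨w, hwN, hwZ, -, hwg⟩ := hCEN p F R N (cenMod N R hR) hN (cenMod_normal hN hR) hm
        (le_cenMod hR hRN) hZN
      obtain ⟨g, hg⟩ : ∃ g, ⁅w, g⁆ ∉ R := by
        by_contra h
        push Not at h
        exact hwZ ⟨hwN, h⟩
      set v₀ : F := ⁅w, g⁆ with hv₀
      have hvZ : v₀ ∈ cenMod N R hR := hwg g
      have hvN : v₀ ∈ N := hvZ.1
      have hvC : v₀ ∈ ⁅N, (⊤ : Subgroup F)⁆ :=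
        Subgroup.commutator_mem_commutator hwN (Subgroup.mem_top g)
      have hvQ : v₀ ∈ Q := le_sup_left (a := ⁅N, (⊤ : Subgroup F)⁆) hvC
      have hvp : v₀ ^ p ∈ R := hPhi (Subgroup.mem_sup_right
        (Subgroup.subset_closure ⟨v₀, hvN, rfl⟩))
      -- the larger subgroup
      set R₁ : Subgroup F := R ⊔ Subgroup.zpowers v₀ with hR₁
      have hR₁n : R₁.Normal := normal_sup hR hvZ.2
      have hRR₁ : R ≤ R₁ := le_sup_left
      have hR₁Q : R₁ ≤ Q := sup_le le_sup_right (by
        rw [Subgroup.zpowers_le]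
        exact hvQ)
      have hrel : R.relIndex R₁ = p := relIndex_sup hR hg hvp
      have hQ₁ : ⁅N, (⊤ : Subgroup F)⁆ ⊔ R₁ = Q := by
        refine le_antisymm (sup_le le_sup_left hR₁Q) ?_
        exact sup_le_sup le_rfl hRR₁
      have hR₁Qi : R₁.relIndex Q = p ^ τ := by
        have h1 := Subgroup.relIndex_mul_relIndex R R₁ Q hRR₁ hR₁Q
        rw [hrel, hτ, pow_succ, mul_comm] at h1
        exact Nat.eq_of_mul_eq_mul_right hp.out.pos h1
      have hm₁ : ∃ m, R₁.index = p ^ m := by
        obtain ⟨m, hm⟩ := hm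
        obtain ⟨k, -, hk⟩ := (Nat.dvd_prime_pow hp.out).1 (hm ▸ Subgroup.index_dvd_of_le hRR₁)
        exact ⟨k, hk⟩
      obtain ⟨hfin, hdim⟩ := ih R₁ hR₁n (hR₁Q.trans hQN) hm₁ (hPhi.trans hRR₁)
        (by rw [hQ₁]; exact hδ) (by rw [hQ₁]; exact hR₁Qi)
      -- the map
      let T : AltInv p N R →ₗ[ZMod p] (F → ZMod p) :=
        { toFun := fun β => β.1 v₀
          map_add' := fun _ _ => rfl
          map_smul' := fun _ _ => rfl }
      have hT : ∀ β, T β ∈ YY p ⊤ N Q := by
        rintro ⟨β, hβ⟩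
        have hconj : ∀ g' : F, ∀ y ∈ N, β v₀ (g' * y * g'⁻¹) = β v₀ y := by
          intro g' y hy
          have h1 : g'⁻¹ * v₀ * g' = v₀ * ⁅v₀⁻¹, g'⁻¹⁆ := by
            rw [commutatorElement_def]
            group
          have h2 : ⁅v₀⁻¹, g'⁻¹⁆ ∈ R := ((cenMod N R hR).inv_mem hvZ).2 _
          have h3 := inv_conj hβ g' (hN.conj_mem v₀ hvN g'⁻¹) hy
          rw [inv_inv] at h3
          have h4 : g' * (g'⁻¹ * v₀ * g') * g'⁻¹ = v₀ := by group
          rw [h4] at h3
          rw [h3, h1, add_left hβ hvN (hRN h2) hy, zero_left hβ hRN h2 hy, add_zero]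
        refine ⟨fun y hy => hβ.1 v₀ y (Or.inr hy), fun y hy y' hy' => add_right hβ hvN hy hy',
          fun g' _ y hy => hconj g' y hy, fun y _ hyQ => ?_⟩
        have h1 : Q ≤ perp hβ hvN := by
          refine sup_le ?_ fun r hr => ⟨hRN hr, zero_right hβ hRN hvN hr⟩
          rw [Subgroup.commutator_le]
          intro n hn g' _
          have hg' := hN.conj_mem n⁻¹ (inv_mem hn) g'
          have h2 : ⁅n, g'⁆ = n * (g' * n⁻¹ * g'⁻¹) := by
            rw [commutatorElement_def]
            group
          rw [h2]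
          refine ⟨mul_mem hn hg', ?_⟩
          rw [add_right hβ hvN hn hg', hconj g' n⁻¹ (inv_mem hn), inv_right hβ hvN hn,
            add_neg_cancel]
        exact (h1 hyQ).2
      have hYN := hHOM p F ⊤ N Q δ (by rw [hδ])
      obtain ⟨hfinA, hdimA, hfinr, hrk1⟩ := dim_le (AltInv p N R) (AltInv p N R₁) T (YY p ⊤ N Q)
        hT hYN.1 (by
          rintro ⟨β, hβ⟩ h0
          refine ⟨hβ.1, hβ.2.1, hβ.2.2.1, hβ.2.2.2.1, ?_, hβ.2.2.2.2.2⟩
          intro x hx y hy hxR
          have h1 : R₁ ≤ perp hβ hy := by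
            refine sup_le (fun r hr => ⟨hRN hr, zero_right hβ hRN hy hr⟩) ?_
            rw [Subgroup.zpowers_le]
            refine ⟨hvN, ?_⟩
            rw [anti hβ hy hvN]
            have h2 : β v₀ y = 0 := congrFun h0 y
            rw [h2, neg_zero]
          change β x y = 0
          rw [anti hβ hx hy, (h1 hxR).2, neg_zero]) hfin
      -- the second bound for the rank
      let U : AltInv p N R →ₗ[ZMod p] (F → ZMod p) :=
        { toFun := fun β y => if y ∈ Q then β.1 w y else 0
          map_add' := by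
            intro β γ
            funext y
            simp only [Pi.add_apply]
            split_ifs
            · rfl
            · rw [add_zero]
          map_smul' := by
            intro t β
            funext y
            simp only [Pi.smul_apply, RingHom.id_apply]
            split_ifs
            · rfl
            · rw [smul_zero] }
      have hU : ∀ β, U β ∈ YY p ⊥ Q R := by
        rintro ⟨β, hβ⟩
        refine ⟨fun y hy => if_neg hy, fun y hy y' hy' => ?_, fun g' hg' y hy => ?_,
          fun y hy hyR => ?_⟩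
        · change (if y * y' ∈ Q then β w (y * y') else 0) =
            (if y ∈ Q then β w y else 0) + (if y' ∈ Q then β w y' else 0)
          rw [if_pos hy, if_pos hy', if_pos (mul_mem hy hy')]
          exact add_right hβ hwN (hQN hy) (hQN hy')
        · rw [Subgroup.mem_bot] at hg'
          subst hg'
          rw [one_mul, inv_one, mul_one]
        · change (if y ∈ Q then β w y else 0) = 0
          rw [if_pos hy]
          exact zero_right hβ hRN hwN hyR
      have hYQ := hHOM p F ⊥ Q R (τ + 1) (by rw [hτ])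
      obtain ⟨-, -, hfinU, hrkU⟩ := dim_le (AltInv p N R) (AltInv p N R) U (YY p ⊥ Q R)
        hU hYQ.1 (fun β _ => β.2) hfinA
      have hker : LinearMap.ker U ≤ LinearMap.ker T := by
        rintro ⟨β, hβ⟩ h0
        rw [LinearMap.mem_ker] at h0 ⊢
        funext y
        change β v₀ y = 0
        by_cases hy : y ∈ N
        · have h1 : ∀ q ∈ Q, β w q = 0 := by
            intro q hq
            have := congrFun h0 q
            change (if q ∈ Q then β w q else 0) = 0 at this
            rwa [if_pos hq] at this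
          have hgw := hN.conj_mem w hwN g
          have hgy : g⁻¹ * y * g ∈ N := by
            have := hN.conj_mem y hy g⁻¹
            rwa [inv_inv] at this
          have h2 : β w y = β v₀ y + β (g * w * g⁻¹) y := by
            rw [← add_left hβ hvN hgw hy]
            congr 1
            rw [hv₀, commutatorElement_def]
            group
          have h3 : β (g * w * g⁻¹) y = β w (g⁻¹ * y * g) := by
            have h4 := inv_conj hβ g hwN hgy
            have h5 : g * (g⁻¹ * y * g) * g⁻¹ = y := by group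
            rwa [h5] at h4
          have h4 : β w (y * (g⁻¹ * y * g)⁻¹) = 0 := by
            refine h1 _ (le_sup_left (a := ⁅N, (⊤ : Subgroup F)⁆) ?_)
            have h5 : y * (g⁻¹ * y * g)⁻¹ = ⁅y, g⁻¹⁆ := by
              rw [commutatorElement_def]
              group
            rw [h5]
            exact Subgroup.commutator_mem_commutator hy (Subgroup.mem_top _)
          rw [add_right hβ hwN hy (inv_mem hgy), inv_right hβ hwN hgy] at h4
          rw [h3] at h2
          have h5 : β v₀ y = β w y - β w (g⁻¹ * y * g) := by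
            rw [h2]
            ring
          rw [h5, sub_eq_add_neg, h4]
        · exact hβ.1 v₀ y (Or.inr hy)
      have hrk2 := range_le T U hker hfinU
      refine ⟨hfinA, ?_⟩
      have h1 := hYN.2
      have h2 := hYQ.2
      have hr1 : Module.finrank (ZMod p) (LinearMap.range T) ≤ min δ (τ + 1) := by
        refine le_min ?_ ?_ <;> omega
      have h3 : 2 * min δ (τ + 1) + (τ ^ 2 + min δ τ) ≤ (τ + 1) ^ 2 + min δ (τ + 1) := by
        have h4 : min δ (τ + 1) ≤ τ + 1 := min_le_right _ _
        have h5 : min δ τ ≤ τ := min_le_right _ _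
        have h6 : (τ + 1) ^ 2 = τ ^ 2 + 2 * τ + 1 := by ring
        omega
      omega
  -- conclusion
  set Q : Subgroup F := ⁅N, ⊤⁆ ⊔ R with hQ
  have hCN : ⁅N, (⊤ : Subgroup F)⁆ ≤ N := Subgroup.commutator_le_left N ⊤
  have hQN : Q ≤ N := sup_le hCN hRN
  have hRQ : R ≤ Q := le_sup_right
  have h1 := Subgroup.relIndex_mul_relIndex R Q N hRQ hQN
  rw [hv, hδ] at h1
  obtain ⟨τ, -, hτ⟩ : ∃ τ ≤ v, R.relIndex Q = p ^ τ :=
    (Nat.dvd_prime_pow hp.out).1 (Dvd.intro _ h1)
  have hvτ : v = τ + δ := by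
    rw [hτ, ← pow_add] at h1
    exact (Nat.pow_right_injective hp2 h1).symm
  obtain ⟨hfin, hdim⟩ := claim τ R hR hRN hm hPhi hδ hτ
  refine ⟨hfin, ?_⟩
  rw [hvτ, Nat.add_sub_cancel]
  rw [Nat.le_div_iff_mul_le (by norm_num)]
  have h2 : min δ τ ≤ δ := min_le_left _ _
  omega

end Pool.Agent.Lib.MP4ccb00.E
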