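import Pool.Agent.Lib.MP_4ccb00_al.E.Spec2

section
/-!
# Module NUM: the maximisation
-/
namespace Pool.Agent.Lib.MP4ccb00.E

namespace NUMM

/-- the basic estimate -/
theorem basic (y x C w : ℝ) (hx : 0 ≤ x) (hC : 0 ≤ C) (hxw : x ≤ w) (hw : w = 1 - y - C) :
    C * (y ^ 2 + x ^ 2) / 2 ≤
      2/27 - (y + w - 2/3) ^ 2 * (y + w + 1/3) / 2 - C * (y * w) := by
  have h1 : C = 1 - (y + w) := by rw [hw]; ring
  have h2 : x ^ 2 ≤ w ^ 2 := pow_le_pow_left₀ hx hxw 2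
  have h3 : C * x ^ 2 ≤ C * w ^ 2 := mul_le_mul_of_nonneg_left h2 hC
  have h4 : C * (y ^ 2 + w ^ 2) / 2 =
      2/27 - (y + w - 2/3) ^ 2 * (y + w + 1/3) / 2 - C * (y * w) := by
    rw [h1]
    ring
  have h5 : C * (y ^ 2 + x ^ 2) = C * y ^ 2 + C * x ^ 2 := by ring
  have h6 : C * (y ^ 2 + w ^ 2) = C * y ^ 2 + C * w ^ 2 := by ring
  linarith

end NUMM

open NUMM in
theorem specNUM : SpecNUM := by
  intro ε hε
  set δ : ℝ := min ε 1 / 2 with hδ
  have hδ0 : 0 < δ := by positivity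
  have hδε : 2 * δ ≤ ε := by
    have := min_le_left ε 1
    rw [hδ]; linarith
  have hδ1 : δ ≤ 1 / 2 := by
    have := min_le_right ε 1
    rw [hδ]; linarith
  refine ⟨min (1/6 * (7/50) * δ) (min (7/432) (δ ^ 2 / 6)), by positivity, ?_⟩
  intro y x C hy hx hC hyC hxyC hcase
  have hb := basic y x C (1 - y - C) hx hC (by linarith) rfl
  have hu : y + (1 - y - C) = 1 - C := by ring
  rw [hu] at hb
  have hC1 : C ≤ 1 := by linarith
  have hm1 := min_le_left (1/6 * (7/50) * δ) (min (7/432) (δ ^ 2 / 6))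
  have hm2 := (min_le_right (1/6 * (7/50) * δ) (min (7/432) (δ ^ 2 / 6))).trans (min_le_left _ _)
  have hm3 := (min_le_right (1/6 * (7/50) * δ) (min (7/432) (δ ^ 2 / 6))).trans (min_le_right _ _)
  have hsq : 0 ≤ (1 - C - 2/3) ^ 2 * (1 - C + 1/3) / 2 := by
    have : 0 ≤ 1 - C + 1/3 := by linarith
    positivity
  have hyw : 0 ≤ y * (1 - y - C) := mul_nonneg (by linarith) (by linarith)
  have hCyw : 0 ≤ C * (y * (1 - y - C)) := mul_nonneg hC hyw
  by_cases hw : δ ≤ 1 - y - C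
  · -- `w` large
    by_cases hC6 : 1/6 ≤ C
    · have h1 : 7/50 * δ ≤ y * (1 - y - C) := mul_le_mul hy hw hδ0.le (by linarith)
      have h2 : 1/6 * (7/50 * δ) ≤ C * (y * (1 - y - C)) :=
        mul_le_mul hC6 h1 (by positivity) hC
      nlinarith
    · have h1 : (1/6 : ℝ) ≤ 1 - C - 2/3 := by linarith
      have h2 : (1/6 : ℝ) ^ 2 ≤ (1 - C - 2/3) ^ 2 := pow_le_pow_left₀ (by norm_num) h1 2
      have h3 : (7/6 : ℝ) ≤ 1 - C + 1/3 := by linarith
      have h4 : (1/6 : ℝ) ^ 2 * (7/6) ≤ (1 - C - 2/3) ^ 2 * (1 - C + 1/3) :=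
        mul_le_mul h2 h3 (by norm_num) (by positivity)
      have h5 : (1/6 : ℝ) ^ 2 * (7/6) / 2 = 7/432 := by norm_num
      linarith
  · -- `w` small
    have hw' : 1 - y - C < δ := not_le.1 hw
    have h0 : ε ≤ |y - 2/3| := by
      rcases hcase with h | h
      · exfalso
        linarith
      · exact h
    have h1 : δ ≤ |1 - C - 2/3| := by
      have h2 : |y - 2/3| ≤ |1 - C - 2/3| + |1 - y - C| := by
        have h3 : y - 2/3 = (1 - C - 2/3) - (1 - y - C) := by ring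
        rw [h3]
        exact abs_sub _ _
      have h4 : |1 - y - C| ≤ δ := by
        rw [abs_of_nonneg (by linarith)]
        exact hw'.le
      linarith
    have h2 : δ ^ 2 ≤ (1 - C - 2/3) ^ 2 := by
      rw [← sq_abs (1 - C - 2/3)]
      exact pow_le_pow_left₀ hδ0.le h1 2
    have h3 : (1/3 : ℝ) ≤ 1 - C + 1/3 := by linarith
    have h4 : δ ^ 2 * (1/3) ≤ (1 - C - 2/3) ^ 2 * (1 - C + 1/3) :=
      mul_le_mul h2 h3 (by norm_num) (by positivity)
    linarith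

end Pool.Agent.Lib.MP4ccb00.E
end

section
set_option autoImplicit false

namespace Pool.Agent.Lib.MP4ccb00.E

/-- SMD: few generators. -/
theorem specSMD (hC : SpecCNTA) : SpecSMD := by
  refine ⟨1 / 1000, 1000, by norm_num, ?_⟩
  intro n hn p hp F _ d f hf hd
  obtain ⟨hfin, hcard⟩ := hC p F d n f hf
  have hsub : Marked p n F ⊆ {R : Subgroup F | R.Normal ∧ R.index = p ^ n} := by
    rintro R ⟨h1, -, h3⟩
    exact ⟨h1, h3⟩
  refine ⟨hfin.subset hsub, ?_⟩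
  have h1 : (Marked p n F).ncard ≤ p ^ ((d + 1) * (n * (n - 1) / 2) + d * n) :=
    (Set.ncard_le_ncard hsub hfin).trans hcard
  have hp1 : (1 : ℝ) ≤ (p : ℝ) := by
    exact_mod_cast hp.out.one_lt.le
  have h2 : ((Marked p n F).ncard : ℝ) ≤
      (p : ℝ) ^ (((((d + 1) * (n * (n - 1) / 2) + d * n : ℕ)) : ℝ)) := by
    rw [Real.rpow_natCast]
    exact_mod_cast h1
  refine h2.trans (Real.rpow_le_rpow_of_exponent_le hp1 ?_)
  have h3 : ((n * (n - 1) / 2 : ℕ) : ℝ) ≤ (n : ℝ) ^ 2 / 2 := by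
    have h4 : n * (n - 1) / 2 * 2 ≤ n * n := by
      have h5 : n * (n - 1) / 2 * 2 ≤ n * (n - 1) := Nat.div_mul_le_self _ _
      exact h5.trans (Nat.mul_le_mul_left n (Nat.sub_le n 1))
    have h6 : ((n * (n - 1) / 2 : ℕ) : ℝ) * 2 ≤ (n : ℝ) * n := by exact_mod_cast h4
    rw [pow_two]
    linarith
  have hn' : (1000 : ℝ) ≤ (n : ℝ) := by exact_mod_cast hn
  have hd0 : (0 : ℝ) ≤ (d : ℝ) := Nat.cast_nonneg d
  push_cast at h3 ⊢
  have h7 : ((d : ℝ) + 1) * ((n * (n - 1) / 2 : ℕ) : ℝ) ≤ (7 / 50 * n + 1) * ((n : ℝ) ^ 2 / 2) := by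
    refine mul_le_mul (by linarith) ?_ (Nat.cast_nonneg _) (by positivity)
    exact h3
  have h8 : (d : ℝ) * n ≤ 7 / 50 * n * n := mul_le_mul_of_nonneg_right hd (by positivity)
  have h9 : (1000 : ℝ) * (n : ℝ) ^ 2 ≤ (n : ℝ) ^ 3 := by
    have : (n : ℝ) ^ 3 = n * (n : ℝ) ^ 2 := by ring
    rw [this]
    exact mul_le_mul_of_nonneg_right hn' (by positivity)
  calc ((d : ℝ) + 1) * ((n * (n - 1) / 2 : ℕ) : ℝ) + (d : ℝ) * n
      ≤ (7 / 50 * n + 1) * ((n : ℝ) ^ 2 / 2) + 7 / 50 * n * n := add_le_add h7 h8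
    _ ≤ (2 / 27 - 1 / 1000) * (n : ℝ) ^ 3 := by nlinarith

end Pool.Agent.Lib.MP4ccb00.E
end
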