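import Pool.Agent.Lib.MP_4ccb00_al.N.YFI

/-!
# MP_4ccb00_al, part (e), module STR: counting marked groups with a structure
-/

namespace Pool.Agent.Lib.MP4ccb00.E

open scoped commutatorElement

open E4M in
theorem specSTR (hE4 : SpecE4) : SpecSTR := by
  intro p hp F _ d n K s c v f hf hd
  have hprime : p.Prime := Fact.out
  obtain ⟨hA1, hA2⟩ := specCNTA p F d K f hf
  set 𝒩 : Set (Subgroup F) := {N | N.Normal ∧ N.index = p ^ K} with h𝒩
  let W : Subgroup F → Set (Subgroup F) := fun N => {R | R ∈ Marked p n F ∧ R ≤ N ∧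
    ∃ (h : Fin s → F), (∀ j, h j ∈ N) ∧ ⁅N, N⁆ ≤ ⁅gen h, gen h⁆ ⊔ R ∧
      R.relIndex ⁅N, N⁆ = p ^ c ∧ (PhiP p N ⊔ R).relIndex N = p ^ v}
  have hW : ∀ N ∈ 𝒩, (W N).Finite ∧
      (W N).ncard ≤ p ^ (d * s) * p ^ (c * B1 d K v + n * B2 d K n s) := by
    rintro N ⟨hN, hNK⟩
    rcases Set.eq_empty_or_nonempty (W N) with hemp | ⟨R₁, hR₁⟩
    · rw [hemp]
      exact ⟨Set.finite_empty, by simp⟩
    obtain ⟨⟨hR₁n, hR₁P, hR₁i⟩, hR₁N, -⟩ := hR₁
    have hP : (PhiP p (⊤ : Subgroup F)).Normal := E5M.phiP_normal p inferInstance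
    obtain ⟨R₀, hR₀⟩ : ∃ R₀, R₀ = N ⊓ PhiP p (⊤ : Subgroup F) := ⟨_, rfl⟩
    have hR₀n : R₀.Normal := by
      rw [hR₀]
      infer_instance
    have hR₀N : R₀ ≤ N := by rw [hR₀]; exact inf_le_left
    have hR₀P : R₀ ≤ PhiP p ⊤ := by rw [hR₀]; exact inf_le_right
    have hR₁R₀ : R₁ ≤ R₀ := by rw [hR₀]; exact le_inf hR₁N hR₁P
    obtain ⟨m, hmn, hm⟩ : ∃ m ≤ n, R₀.index = p ^ m := by
      have h1 : R₀.index ∣ R₁.index := Subgroup.index_dvd_of_le hR₁R₀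
      rw [hR₁i] at h1
      exact (Nat.dvd_prime_pow hprime).1 h1
    -- the index of `R₀` in `N`
    have hq1 : R₀.relIndex N ∣ p ^ d := by
      have e : R₀.relIndex N = (PhiP p (⊤ : Subgroup F)).relIndex N := by
        rw [hR₀, Subgroup.inf_relIndex_left]
      rw [e, ← hd, ← Subgroup.relIndex_top_right, Base.relIndex_map, Base.relIndex_map]
      exact Subgroup.card_dvd_of_le (Subgroup.map_mono le_top)
    obtain ⟨q, hq⟩ : ∃ q, q = R₀.relIndex N := ⟨_, rfl⟩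
    rw [← hq] at hq1
    have hqpos : q ≠ 0 := by
      rintro rfl
      exact (pow_pos hprime.pos d).ne' (Nat.eq_zero_of_zero_dvd hq1)
    have hqle : q ≤ p ^ d := Nat.le_of_dvd (pow_pos hprime.pos d) hq1
    obtain ⟨ρ, hρ1, hρ2⟩ := reps R₀ N q hqpos hq.symm
    -- the union
    have hsub : W N ⊆ ⋃ t ∈ (Set.univ : Set (Fin s → Fin q)),
        TT p N R₀ (fun j => ρ (t j)) n c v := by
      rintro R ⟨⟨hRn, hRP, hRi⟩, hRN, h, hhN, hcom, hc, hv⟩
      have ht : ∀ j, ∃ i : Fin q, (ρ i)⁻¹ * h j ∈ R₀ := fun j => hρ2 _ (hhN j)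
      choose t ht using ht
      simp only [Set.mem_iUnion]
      refine ⟨t, Set.mem_univ _, hRn, ?_, hRi, ?_, hv.le, h, ht, hcom⟩
      · rw [hR₀]
        exact le_inf hRN hRP
      · have e1 : ⁅N, N⁆ ⊓ R₀ = ⁅N, N⁆ := by
          rw [inf_eq_left, hR₀]
          refine le_inf (Subgroup.commutator_le_left N N) ?_
          exact (Subgroup.commutator_mono le_top le_top).trans le_sup_left
        rw [e1, Subgroup.inf_relIndex_left]
        exact hc
    obtain ⟨h1, h2⟩ := union_bound (Set.univ : Set (Fin s → Fin q)) Set.finite_univ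
      (fun t => TT p N R₀ (fun j => ρ (t j)) n c v) (p ^ (d * s))
      (p ^ (c * B1 d K v + n * B2 d K n s))
      (by
        rw [Set.ncard_univ, Nat.card_fun, Nat.card_fin, Nat.card_fin, pow_mul]
        exact Nat.pow_le_pow_left hqle s)
      (by
        intro t _
        obtain ⟨k1, k2⟩ := hE4 p F d K m s n c v f N R₀ (fun j => ρ (t j)) hf hd hN hR₀n hR₀N
          hR₀P hNK hm hmn (fun j => hρ1 _)
        refine ⟨k1, k2.trans (Nat.pow_le_pow_right hprime.pos ?_)⟩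
        exact Nat.add_le_add_left (Nat.mul_le_mul_right _ (Nat.sub_le n m)) _)
    exact ⟨h1.subset hsub, (Set.ncard_le_ncard hsub h1).trans h2⟩
  obtain ⟨h1, h2⟩ := union_bound 𝒩 hA1 W _ _ hA2 hW
  have hsub : Str p n K s c v F ⊆ ⋃ N ∈ 𝒩, W N := by
    rintro R ⟨hR, N, h, hN, hRN, hNK, hhN, hcom, hc, hv⟩
    simp only [Set.mem_iUnion]
    exact ⟨N, ⟨hN, hNK⟩, hR, hRN, h, hhN, hcom, hc, hv⟩
  refine ⟨h1.subset hsub, (Set.ncard_le_ncard hsub h1).trans (h2.trans (le_of_eq ?_))⟩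
  rw [← pow_add, ← pow_add]
  congr 1
  ring

end Pool.Agent.Lib.MP4ccb00.E
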