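import Pool.Agent.Lib.MP_4ccb00_al.E.Defs

/-!
# MP_4ccb00_al, part (e): Specs (group part)

Conventions of Mathlib: `⁅x, y⁆ = x * y * x⁻¹ * y⁻¹`, `A.relIndex B = |B : A ⊓ B|`.
`c = ⁅z, g⁆` gives `z * g * z⁻¹ = c * g` and `g * z⁻¹ * g⁻¹ = z⁻¹ * c`.

Every module is one file `E/NAME.lean` with `theorem specNAME (other Specs) : SpecNAME`.
All Specs are independent of each other (use any of them as hypotheses).
-/

namespace Pool.Agent.Lib.MP4ccb00.E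

open scoped commutatorElement

/-- CEN (80 lines). PROOF. `B` has `p`-power index (it contains `R`: `Subgroup.index_dvd_of_le`), so
`G = F/B` is a finite `p`-group and `A/B` (the image of `A`) is a normal subgroup `≠ 1`. A nontrivial
normal subgroup of a finite `p`-group contains a central element of order `p`:
let `G` act on it by conjugation; the number of fixed points is divisible by `p`
(`IsPGroup.card_modEq_card_fixedPoints`), `1` is fixed, so there is a fixed `y ≠ 1`;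
a power of `y` has order `p`. Lift it to `F`. -/
def SpecCEN : Prop :=
  ∀ (p : ℕ) [Fact p.Prime] (F : Type) [Group F] (R A B : Subgroup F), A.Normal → B.Normal →
    (∃ m, R.index = p ^ m) → R ≤ B → B < A →
    ∃ z ∈ A, z ∉ B ∧ z ^ p ∈ B ∧ ∀ g, ⁅z, g⁆ ∈ B

/-- TOP (60 lines). PROOF from CEN. Induction on `R'.relIndex R` (a power of `p`). CEN for
`R' < R` (with `R' , R , R'` for `R, A, B`) gives `z`; `S = R' ⊔ Subgroup.zpowers z` is normal (all commutators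
`⁅z, g⁆` are in `R'`), `R' < S ≤ R`, and every element of `S` is `z^i r` with
`0 ≤ i < p`, so `R'.relIndex S = p`. If `S = R` take `R1 = R'`; otherwise induction for `S < R`. -/
def SpecTOP : Prop :=
  ∀ (p : ℕ) [Fact p.Prime] (F : Type) [Group F] (R' R : Subgroup F), R'.Normal → R.Normal →
    (∃ m, R'.index = p ^ m) → R' < R →
    ∃ R1 : Subgroup F, R1.Normal ∧ R' ≤ R1 ∧ R1 < R ∧ R1.relIndex R = p

/-- BOT (40 lines): the same at the bottom. PROOF: `z` from CEN for `R' < R`,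
`R1 = R' ⊔ Subgroup.zpowers z` (normal since all `⁅z, g⁆` are in `R'`; its elements are `z^i r`). -/
def SpecBOT : Prop :=
  ∀ (p : ℕ) [Fact p.Prime] (F : Type) [Group F] (R' R : Subgroup F), R'.Normal → R.Normal →
    (∃ m, R'.index = p ^ m) → R' < R →
    ∃ R1 : Subgroup F, R1.Normal ∧ R' < R1 ∧ R1 ≤ R ∧ R'.relIndex R1 = p

/-- CYC (100 lines): a normal step of index `p` is central. PROOF. In `F/R'` (a finite `p`-group) the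
image of `R` is a normal subgroup of order `p`. CEN for `R' < R` gives `y ∈ R`, `y ∉ R'`, `⁅y, g⁆ ∈ R'`; as
the index is prime, `R' ⊔ zpowers y = R`, every `x ∈ R` is `y^i r`. For `z = y^i r ∉ R'`:
`p ∤ i`, so `y` is a power of `z` modulo `R'`. -/
def SpecCYC : Prop :=
  ∀ (p : ℕ) [Fact p.Prime] (F : Type) [Group F] (R' R : Subgroup F), R'.Normal → R.Normal →
    (∃ m, R'.index = p ^ m) → R' ≤ R → R'.relIndex R = p →
    (∀ r ∈ R, r ^ p ∈ R') ∧ ⁅R, (⊤ : Subgroup F)⁆ ≤ R' ∧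
      ∀ z ∈ R, z ∉ R' → ∀ x ∈ R, ∃ i : ℕ, (z ^ i)⁻¹ * x ∈ R'

/-- GEN (60 lines). PROOF. Strong induction on `K` for arbitrary subgroups `N`
of index `p^K`: if `N ≠ ⊤` take `x ∉ N`, `N1 = N ⊔ zpowers x`; its index divides `p^K` and is
smaller, so it is `p^K'` with `K' < K`; take `x` as one more generator (fill up with `1`). -/
def SpecGEN : Prop :=
  ∀ (p : ℕ) [Fact p.Prime] (F : Type) [Group F] (N : Subgroup F) (K : ℕ), N.index = p ^ K →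
    ∃ g : Fin K → F, gen g ⊔ N = ⊤

/-- HOM (80 lines). PROOF. Take `m` elements of `D` which generate `D` modulo `R ⊓ D` (GEN for the group
`↥D` and the subgroup `R.subgroupOf D`; the index is a power `p^j`, `j ≤ m`, by
`Nat.dvd_prime_pow`). A function in `YY p A D R` is additive on `D`, zero outside `D` and on
`R ⊓ D`, so it is determined by its values at these elements: injective linear map into
`Fin j → ZMod p`. -/
def SpecHOM : Prop :=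
  ∀ (p : ℕ) [Fact p.Prime] (F : Type) [Group F] (A D R : Subgroup F) (m : ℕ),
    R.relIndex D ∣ p ^ m → DLE (YY p A D R) m

/-- EXT (150 lines). PROOF. Linear map
`Ψ : YY p ⊤ R' D → (Fin k → ZMod p) × ZMod p`, `φ ↦ (φ ⁅z, g j⁆, φ (z^p))`. Let `Ψ φ = 0`. Then
`φ ⁅z, y⁆ = 0` for all `y : F`: the set of these `y` is a subgroup by
`⁅z, x y⁆ = ⁅z, x⁆ * (x ⁅z, y⁆ x⁻¹)` and invariance; it contains all `g j`, and all `c ∈ C`
(then `⁅z, c⁆ ∈ R' ⊓ D`). Choose for `x ∈ R` a number `κ x` with `(z^(κ x))⁻¹ x ∈ R'`, and put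
`φ' x = φ ((z^(κ x))⁻¹ x)` (`0` outside `R`): linear in `φ`. As `z ∉ R'`, `z^p ∈ R'`, we have
`z^i ∈ R' ↔ p ∣ i`, and then `φ (z^i) = 0`. So `φ' (z^i r) = φ r` for all `i : ℕ`, `r ∈ R'`
(if `z^i r = z^j r'`, `i ≤ j`, then `z^(j-i) ∈ R'` and `r = z^(j-i) r'`). `φ'` is additive:
`(z^i r) (z^j r') = z^(i+j) ((z^j)⁻¹ r z^j r')`; `φ' = φ` on `R'`; `φ' z = 0`. Invariant:
`y (z^i r) y⁻¹ = (y z y⁻¹)^i (y r y⁻¹)`, `y z y⁻¹ = ⁅z, y⁆⁻¹ z`, so `φ' (y z y⁻¹) = 0`. Zero on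
`R ⊓ D`: if `w = z^i r ∈ D` and `z ∈ D` then `r ∈ R' ⊓ D` and `φ' w = φ r = 0`;
if `R ⊓ D ≤ R'` then `φ' w = φ w = 0`. So `φ ↦ φ'` is injective from `ker Ψ` to
`YY p ⊤ R D`, and the dimension of `YY p ⊤ R' D` is at most `k + 1 + n`. -/
def SpecEXT : Prop :=
  ∀ (p : ℕ) [Fact p.Prime] (F : Type) [Group F] (R' R D C : Subgroup F) (z : F) (k n : ℕ)
    (g : Fin k → F), R'.Normal → R.Normal → D.Normal → R' ≤ R → z ∈ R → z ∉ R' → z ^ p ∈ R' →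
    (∀ x ∈ R, ∃ i : ℕ, (z ^ i)⁻¹ * x ∈ R') → (∀ y, ⁅z, y⁆ ∈ R') → (∀ c ∈ C, ⁅z, c⁆ ∈ D) →
    gen g ⊔ C = ⊤ → (R ⊓ D ≤ R' ∨ z ∈ D) →
    DLE (YY p ⊤ R D) n → DLE (YY p ⊤ R' D) (k + 1 + n)

/-- AY (60 lines), the lemma (a). PROOF. Induction on `m`; `m = 0`: `R = ⊤`, a homomorphism is determined by its
values at the `s` generators. `m + 1`: `R1` from BOT for `R < ⊤`, `R1.index = p^m`, any
`z ∈ R1`, `z ∉ R` (CYC), EXT with `D = ⊥`, `C = ⊥` (`R1 ⊓ ⊥ ≤ R`). -/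
def SpecAY : Prop :=
  ∀ (p : ℕ) [Fact p.Prime] (F : Type) [Group F] (s m : ℕ) (h : Fin s → F) (R : Subgroup F),
    gen h = ⊤ → R.Normal → R.index = p ^ m → DLE (YY p ⊤ R ⊥) ((s + 1) * m + s)

/-- NXT (120 lines). PROOF. `R/R'` has order `p` and is a normal subgroup of the finite `p`-group
`F/R'`, so it is central (CYC: fix `z ∈ R`, `z ∉ R'`; `R = ⋃ z^i R'`, `0 ≤ i < p`). `φ (z^i r) = i` is in
`YY p ⊤ R D` (zero on `R ⊓ D ≤ R'`) and its zero set in `R` is `R'`. So `R' ↦ φ` is injective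
from this set of subgroups to `YY p ⊤ R D`, which has at most `p^k` elements
(`Module.card_eq_pow_finrank`). -/
def SpecNXT : Prop :=
  ∀ (p : ℕ) [Fact p.Prime] (F : Type) [Group F] (R D : Subgroup F) (k : ℕ), R.Normal →
    (∃ m, R.index = p ^ m) → DLE (YY p ⊤ R D) k →
    {R' : Subgroup F | R'.Normal ∧ R' ≤ R ∧ R'.relIndex R = p ∧ R ⊓ D ≤ R'}.Finite ∧
    {R' : Subgroup F | R'.Normal ∧ R' ≤ R ∧ R'.relIndex R = p ∧ R ⊓ D ≤ R'}.ncard ≤ p ^ k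

/-- BST (80 lines), the lemma (b), one step. PROOF. Put `K = ⁅H,H⁆`. For `n ∈ N`, `h ∈ H`:
`n h n⁻¹ = ⁅n, h⁆ h ∈ ⁅N,N⁆ H ⊆ K R H ⊆ H R` (`R` is normal, `K ≤ H`). So
`n H n⁻¹ ≤ H ⊔ R` and `n K n⁻¹ = ⁅n H n⁻¹, n H n⁻¹⁆ ≤ ⁅H ⊔ R, H ⊔ R⁆ ≤ K ⊔ R'`, since
`⁅h r, h' r'⁆ ≡ ⁅h, h'⁆` modulo `R'` (`R` is central modulo `R'` in `N`, `H, R ≤ N`): first claim. In the
quotient of `N` by its normal subgroup `K ⊔ R'` the image of `⁅N,N⁆ ≤ K ⊔ R` is the image of a subgroup of `R`,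
which is central and killed by `p`-th powers: second and third claim. (Elementwise: `d = k r`;
`⁅k r, n⁆ = k ⁅r, n⁆ k⁻¹ ⁅k, n⁆` with `⁅r, n⁆ ∈ R'`, `⁅k, n⁆ = k (n k⁻¹ n⁻¹) ∈ K ⊔ R'`;
`(k r)^p ∈ k^p r^p R'`.) -/
def SpecBST : Prop :=
  ∀ (p : ℕ) (F : Type) [Group F] (N H R R' : Subgroup F), R.Normal → R'.Normal → R' ≤ R →
    R ≤ N → H ≤ N → ⁅R, N⁆ ≤ R' → (∀ r ∈ R, r ^ p ∈ R') → ⁅N, N⁆ ≤ ⁅H, H⁆ ⊔ R →
    (∀ n ∈ N, ∀ x ∈ ⁅H, H⁆ ⊔ R', n * x * n⁻¹ ∈ ⁅H, H⁆ ⊔ R') ∧ ⁅⁅N, N⁆, N⁆ ≤ ⁅H, H⁆ ⊔ R' ∧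
      ∀ d ∈ ⁅N, N⁆, d ^ p ∈ ⁅H, H⁆ ⊔ R'

/-- BF (60 lines), the lemma (b). PROOF. By induction (BOT / TOP chain) for all normal `S` of `F`
with `R ≤ S ≤ N` (from `S = N` down to `S = R`): `⁅N,N⁆ ≤ ⁅H,H⁆ ⊔ S`. If it holds for `S` and
`S' < S` is normal of index `p` with `R ≤ S'` (TOP), then `⁅S, N⁆ ≤ S'` and `s^p ∈ S'` (CYC), so BST and the
hypothesis give `⁅N,N⁆ ≤ ⁅H,H⁆ ⊔ S'`. -/
def SpecBF : Prop :=
  ∀ (p : ℕ) [Fact p.Prime] (F : Type) [Group F] (N H R : Subgroup F), N.Normal → R.Normal →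
    (∃ m, R.index = p ^ m) → R ≤ N → H ≤ N →
    ⁅N, N⁆ ≤ ⁅H, H⁆ ⊔ ⁅⁅N, N⁆, N⁆ ⊔ Subgroup.closure {x | ∃ d ∈ ⁅N, N⁆, x = d ^ p} ⊔ R →
    ⁅N, N⁆ ≤ ⁅H, H⁆ ⊔ R

/-- E3 (100 lines). PROOF. `g : Fin K → F` with `gen g ⊔ N = ⊤` (GEN), `L = gen g`. Restriction to `L`:
a linear map from `YY p ⊤ N ⊥` to `YY p ⊤ (N.subgroupOf L) ⊥` (for the group `↥L`, generated
by `K` elements; the index of `N.subgroupOf L` in `L` is `p^K` because `L N = F`), which has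
dimension at most `(K + 1) * K + K` by AY. If `χ` vanishes on `N ⊓ L`, then `χ' (x l) = χ x`
(`x ∈ N`, `l ∈ L`) is a well defined homomorphism `F → ZMod p`
(`(x l)(x' l') = (x (l x' l⁻¹)) (l l')`), it extends `χ`, and homomorphisms of `F` are determined by
their values at the `d` generators. -/
def SpecE3 : Prop :=
  ∀ (p : ℕ) [Fact p.Prime] (F : Type) [Group F] (d K : ℕ) (f : Fin d → F) (N : Subgroup F),
    gen f = ⊤ → N.Normal → N.index = p ^ K → DLE (YY p ⊤ N ⊥) (d + ((K + 1) * K + K))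

/-- E2 (80 lines). PROOF. Induction on `m`. If `R = N`, E3 (`YY p ⊤ N ⁅N,N⁆ ≤ YY p ⊤ N ⊥`). If
`R < N`: BOT gives `R1`, `R1.index = p^(m-1)`. If `R1 ⊓ ⁅N,N⁆ ≤ R` take any `z ∈ R1`, `z ∉ R`,
otherwise take `z ∈ R1 ⊓ ⁅N,N⁆`, `z ∉ R`; CYC gives the properties of `z`. EXT with
`D = ⁅N,N⁆`, `C = N` (`⁅z, c⁆ ∈ ⁅N,N⁆`), `g` from GEN (`k = K`). -/
def SpecE2 : Prop :=
  ∀ (p : ℕ) [Fact p.Prime] (F : Type) [Group F] (d K m : ℕ) (f : Fin d → F) (N R : Subgroup F),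
    gen f = ⊤ → N.Normal → R.Normal → R ≤ N → N.index = p ^ K → R.index = p ^ m →
    DLE (YY p ⊤ R ⁅N, N⁆) ((K + 1) * m + (d + ((K + 1) * K + K)))

/-- INV (250 lines), invariant alternating forms. PROOF. Put `Q = ⁅N,⊤⁆ ⊔ R`, `τ = v - δ`, so
`R.relIndex Q = p^τ`. Claim: `2 * dim (AltInv p N R) + δ ≤ δ^2 + τ^2 + min δ τ` (and finite).
Induction on `τ`. `τ = 0`: `N/R` is elementary abelian of order `p^δ` (`PhiP p N ≤ R`), generated by `δ` elements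
`x_1, .., x_δ` (GEN in `↥N`); `β` is determined by the `β x_i x_j`, `i < j`: dimension at most
`δ(δ-1)/2`. `τ > 0`: let `Z = {x ∈ N | ∀ g, ⁅x, g⁆ ∈ R}`, a normal subgroup of `F` (it contains `R`) and `Z < N`
(otherwise `Q = R`). CEN for `Z < N` gives `w ∈ N`, `w ∉ Z`, `⁅w, g⁆ ∈ Z` for all `g`; there is `g` with
`v0 = ⁅w, g⁆ ∉ R`; `v0 ∈ Z ⊓ Q`. `R1 = R ⊔ zpowers v0` is normal, `R1 ≤ Q`, `R.relIndex R1 = p`
(`v0^p ∈ PhiP p N ≤ R`), `⁅N,⊤⁆ ⊔ R1 = Q`, so induction applies to `R1` with `δ, τ-1`.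
`AltInv p N R1 = {β ∈ AltInv p N R | β v0 _ = 0}`. The map `β ↦ β v0 _` goes (1) to
`F`-invariant homomorphisms (`β v0 (g y g⁻¹) = β (g⁻¹ v0 g) y = β v0 y` since
`g⁻¹ v0 g ∈ v0 R`), which vanish on `Q`, so dimension at most `δ` (HOM:
`YY p ⊤ N Q`); (2) `β v0 y` depends only on the restriction of `β w _` to `Q`: with
`v0 = w g w⁻¹ g⁻¹`, `w = v0 (g w g⁻¹)`, so
`β v0 y = β w y - β (g w g⁻¹) y = β w y - β w (g⁻¹ y g) = β w (y (g⁻¹ y g)⁻¹)`, and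
`y g⁻¹ y⁻¹ g ∈ ⁅N,⊤⁆ ≤ Q`. The restrictions of `β w _` to `Q` are homomorphisms on `Q` vanishing on `R`:
dimension at most `τ` (HOM: `YY p ⊥ Q R`). So `dim ≤ min δ τ + dim (AltInv p N R1)`, and
`2 min δ τ + (τ-1)^2 + min δ (τ-1) ≤ τ^2 + min δ τ`. -/
def SpecINV : Prop :=
  ∀ (p : ℕ) [Fact p.Prime] (F : Type) [Group F] (N R : Subgroup F) (v δ : ℕ),
    N.Normal → R.Normal → R ≤ N → (∃ m, R.index = p ^ m) → PhiP p N ≤ R →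
    R.relIndex N = p ^ v → (⁅N, ⊤⁆ ⊔ R).relIndex N = p ^ δ →
    DLE (AltInv p N R) ((δ ^ 2 + (v - δ) ^ 2) / 2)

/-- LAM (120 lines). PROOF. `K = ⁅H,H⁆`. Let `φ ∈ YY p ⊤ R H`. Every `x ∈ ⁅N,N⁆` is `k r`, `k ∈ K`, `r ∈ R`
(`Subgroup.mem_sup` with `R` normal); choose such a `κ x = k` for every `x ∈ ⁅N,N⁆` and put
`Λ φ x = φ ((κ x)⁻¹ x)`, and `0` outside `⁅N,N⁆`: linear in `φ`. If `k r = k' r'` then
`k'⁻¹ k = r' r⁻¹ ∈ H ⊓ R` and `φ r = φ r'`; so `Λ φ (k r) = φ r` always. Additive: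
`(k r)(k' r') = k k' ((k'⁻¹ r k') r')`, invariance of `φ`. On `R ⊓ ⁅N,N⁆`: `k = 1`. `N`-invariant:
`R' = {x ∈ R | φ x = 0}` is a normal subgroup of `F`, `⁅R, N⁆ ≤ R'`, `r^p ∈ R'`; BST: for
`d ∈ ⁅N,N⁆`, `n ∈ N`: `⁅n, d⁆ ∈ K ⊔ R'`, so `Λ φ ⁅n, d⁆ = 0` and
`Λ φ (n d n⁻¹) = Λ φ (⁅n, d⁆ d) = Λ φ d`. -/
def SpecLAM : Prop :=
  ∀ (p : ℕ) [Fact p.Prime] (F : Type) [Group F] (N H R : Subgroup F), N.Normal → R.Normal →
    R ≤ N → H ≤ N → ⁅N, N⁆ ≤ ⁅H, H⁆ ⊔ R →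
    ∃ Λ : YY p ⊤ R H →ₗ[ZMod p] (F → ZMod p), ∀ φ : YY p ⊤ R H, Λ φ ∈ YY p N ⁅N, N⁆ ⊥ ∧
      ∀ x ∈ ⁅N, N⁆, x ∈ R → Λ φ x = φ.1 x

/-- E1 (200 lines). PROOF. `H = gen h`. (i) Restriction to `H ⊓ R`, seen in the group `↥H`: a linear map
from `YY p ⊤ R ⊥` to `YY p ⊤ (R.subgroupOf H) ⊥`; the index of `R.subgroupOf H` in `H` is `p^j`,
`j ≤ m`, so by AY the dimension is at most `(s+1) j + s`. Kernel: `YY p ⊤ R H`. (ii) `Λ` from LAM.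
`g : Fin K → F` with `gen g ⊔ N = ⊤` (GEN). The map `φ ↦ (Λφ(g_j _ g_j⁻¹) - Λφ)_j` goes to
`(YY p N ⁅N,N⁆ R)^K`: on `R ⊓ ⁅N,N⁆` both terms are `φ`; dimension at most `K m` by HOM
(`R.relIndex ⁅N,N⁆` divides `R.index`). In its kernel `Λ φ` is invariant under all of `F`. (iii) There
`β x y = Λφ ⁅x, y⁆` (`x, y ∈ N`, `0` otherwise) is in `AltInv p N (PhiP p N ⊔ R)`: additive by
`⁅x x', y⁆ = x ⁅x', y⁆ x⁻¹ ⁅x, y⁆`; `β x y = 0` if `x ∈ R` (then `⁅x, y⁆ ∈ R ⊓ ⁅N,N⁆` and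
`φ ⁅x, y⁆ = φ x + φ (y x⁻¹ y⁻¹) = 0`), if `x ∈ ⁅N,N⁆` (`N`-invariance), if `x = y^p`. INV (the subgroup
`PhiP p N ⊔ R`, `⁅N,⊤⁆ ⊔ (PhiP p N ⊔ R)`) bounds the dimension by `(δ^2 + (v-δ)^2)/2`. (iv) Kernel of
`φ ↦ β`: `Λ φ = 0` on `⁅N,N⁆` (generated by commutators), so `φ = 0` on `R ⊓ ⁅N,N⁆`:
`φ ∈ YY p ⊤ R ⁅N,N⁆`, E2. -/
def SpecE1 : Prop :=
  ∀ (p : ℕ) [Fact p.Prime] (F : Type) [Group F] (d K m s v δ : ℕ) (f : Fin d → F)
    (N R : Subgroup F) (h : Fin s → F), gen f = ⊤ → N.Normal → R.Normal → R ≤ N →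
    N.index = p ^ K → R.index = p ^ m → (∀ j, h j ∈ N) → ⁅N, N⁆ ≤ ⁅gen h, gen h⁆ ⊔ R →
    (PhiP p N ⊔ R).relIndex N = p ^ v → (⁅N, ⊤⁆ ⊔ (PhiP p N ⊔ R)).relIndex N = p ^ δ →
    DLE (YY p ⊤ R ⊥) ((δ ^ 2 + (v - δ) ^ 2) / 2 + ((s + 1) * m + s) + K * m +
      ((K + 1) * m + (d + ((K + 1) * K + K))))

/-- DEL (100 lines). PROOF. `Q = ⁅N,⊤⁆ ⊔ (PhiP p N ⊔ R)`. Lower bound: `Q ≤ N ⊓ PhiP p ⊤`
(as `R ≤ PhiP p ⊤`), so `p^δ ≥ |N : N ⊓ PhiP p ⊤| = |N PhiP p ⊤ : PhiP p ⊤| ≥ p^d / p^K`. Upper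
bound: `N/Q` is elementary abelian of order `p^δ`, so it has `p^δ` homomorphisms to `ZMod p`
(a `ZMod p`-vector space of dimension `δ` and its dual); composed with `N → N/Q` they are elements of
`YY p ⊤ N ⊥` (`F`-invariant because `⁅N,⊤⁆ ≤ Q`), and E3. -/
def SpecDEL : Prop :=
  ∀ (p : ℕ) [Fact p.Prime] (F : Type) [Group F] (d K δ : ℕ) (f : Fin d → F) (N R : Subgroup F),
    gen f = ⊤ → (PhiP p (⊤ : Subgroup F)).index = p ^ d → N.Normal → R.Normal → R ≤ N →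
    R ≤ PhiP p ⊤ → N.index = p ^ K → (⁅N, ⊤⁆ ⊔ (PhiP p N ⊔ R)).relIndex N = p ^ δ →
    d ≤ δ + K ∧ δ ≤ d + ((K + 1) * K + K)

/-- `B1` bounds the cost of a step inside `[N,N]`, `B2` that of the other steps. -/
def B1 (d K v : ℕ) : ℕ := ((d + ((K + 1) * K + K)) ^ 2 + (v + K - d) ^ 2) / 2

/-- See `B1`. -/
def B2 (d K n s : ℕ) : ℕ :=
  s + 1 + (((s + 1) * n + s) + K * n + ((K + 1) * n + (d + ((K + 1) * K + K))))

/-- E4 (250 lines). PROOF. Induction on `n - m` (all `R, h, c` at once).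
`m = n`: `R' = R` (same finite index), so the set has at most one element.
`m < n`. If `TT` is empty nothing to do. Let `R' ∈ TT`, `R' < R`. TOP gives a normal `R1`,
`R' ≤ R1 < R`, `R1.relIndex R = p`, `R1.index = p^(m+1)`. With the `h'` of `R'` choose the
representative `h1 j = h j * ρ i_j` of `h' j R1` (`ρ : Fin p → R` a
transversal of `R1` in `R`, chosen once for every `R1`; `p^s` choices of `h1`). Then
`R' ∈ TT p N R1 h1 n c1 v` where `|⁅N,N⁆ ⊓ R : ⁅N,N⁆ ⊓ R1| = p^(c - c1)`, and this index is `1` or `p`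
(it divides... `R1.relIndex R = p`). If it is `1` then
`R ⊓ ⁅N,N⁆ ≤ R1`: by NXT and E2 there are at most `p^(E2)` such `R1`, `E2 = (K+1) m + (d + ((K+1) K + K))`.
Otherwise `c1 = c - 1` and by NXT (`D = ⊥`) and E1 there are at most `p^(E1)` such `R1`, where E1 is used
for `R` and `h` (`⁅N,N⁆ ≤ ⁅gen h', gen h'⁆ ⊔ R' ≤ ⁅gen h, gen h⁆ ⊔ R` because
`h j ≡ h' j mod R`, `R` normal) and `v_R ≤ v` (`R' ≤ R`), `δ_R` from DEL: so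
`E1 ≤ B1 d K v + (rest)`, since `δ_R ≤ d + ((K+1)K+K)` and `v_R - δ_R ≤ v + K - d`.
(The indices `(PhiP p N ⊔ R).relIndex N`, `(⁅N,⊤⁆ ⊔ ..).relIndex N` divide `R.index`, so they are
powers of `p`.) Together, with `B2 = s + 1 + rest`, `rest ≥ E2`, `m ≤ n`:
`|TT(R,h,c)| ≤ p^s (p^E2 p^(c B1 + (n-m-1) B2) + p^(B1 + rest) p^((c-1) B1 + (n-m-1) B2))
 ≤ 2 p^(s + rest) p^(c B1 + (n-m-1) B2) ≤ p^(c B1 + (n-m) B2)`. -/
def SpecE4 : Prop :=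
  ∀ (p : ℕ) [Fact p.Prime] (F : Type) [Group F] (d K m s n c v : ℕ) (f : Fin d → F)
    (N R : Subgroup F) (h : Fin s → F), gen f = ⊤ → (PhiP p (⊤ : Subgroup F)).index = p ^ d →
    N.Normal → R.Normal → R ≤ N → R ≤ PhiP p ⊤ → N.index = p ^ K → R.index = p ^ m → m ≤ n →
    (∀ j, h j ∈ N) →
    (TT p N R h n c v).Finite ∧
    (TT p N R h n c v).ncard ≤ p ^ (c * B1 d K v + (n - m) * B2 d K n s)

end Pool.Agent.Lib.MP4ccb00.E
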