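import Pool.Agent.Lib.MP_4ccb00_al.E.Spec

/-!
# MP_4ccb00_al, part (e): Specs, second half (stages and the final count)
-/

namespace Pool.Agent.Lib.MP4ccb00.E

open scoped commutatorElement

/-- LAD: the dichotomy of linear algebra (interface with the pure linear algebra part).
Either the forms of `S` which vanish on `W × W` are zero for some `W` of dimension at most `n / k`,
or there is a subspace `U` of bounded codimension, invariant under all automorphisms which preserve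
`S`, such that a positive proportion of the forms vanish on `U × U`. -/
def SpecLAD : Prop :=
  ∀ k : ℕ, 1 ≤ k → ∃ B k' n₀ : ℕ, 1 ≤ k' ∧ ∀ n : ℕ, n₀ ≤ n → ∀ (p : ℕ) [Fact p.Prime] (V : Type)
    [AddCommGroup V] [Module (ZMod p) V] [Module.Finite (ZMod p) V]
    (S : Submodule (ZMod p) (V →ₗ[ZMod p] V →ₗ[ZMod p] ZMod p)),
    (∀ β ∈ S, ∀ x, β x x = 0) → Module.finrank (ZMod p) S ≤ n → Module.finrank (ZMod p) V ≤ n →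
    (∃ W : Submodule (ZMod p) V, Module.finrank (ZMod p) W * k ≤ n ∧
      ∀ β ∈ S, (∀ x ∈ W, ∀ y ∈ W, β x y = 0) → β = 0) ∨
    (∃ U : Submodule (ZMod p) V, Module.finrank (ZMod p) (V ⧸ U) ≤ B ∧
      (∀ g : V ≃ₗ[ZMod p] V, (∀ β ∈ S, β.compl₁₂ g.toLinearMap g.toLinearMap ∈ S) →
        ∀ x ∈ U, g x ∈ U) ∧
      ∃ T : Submodule (ZMod p) (V →ₗ[ZMod p] V →ₗ[ZMod p] ZMod p), T ≤ S ∧
        (∀ β ∈ T, ∀ x ∈ U, ∀ y ∈ U, β x y = 0) ∧ n ≤ k' * Module.finrank (ZMod p) T)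

/-- E5 (one stage, 300 lines). PROOF. Constants from LAD. `Q = PhiP p N ⊔ R`, `V = N/Q` (additive, a
`ZMod p`-module: `x^p ∈ Q`, commutative; finite because `R.index` is). Every
`λ ∈ YY p N ⁅N,N⁆ R` gives the alternating form `β_λ (x Q) (y Q) = λ ⁅x, y⁆`: additive in `x` by
`⁅x x', y⁆ = x ⁅x', y⁆ x⁻¹ ⁅x, y⁆` and `N`-invariance, zero for `x ∈ R` (then `⁅x, y⁆ ∈ R ⊓ ⁅N,N⁆`), for
`x ∈ ⁅N,N⁆`, for `x = y^p`. `λ ↦ β_λ` is linear and injective (`λ` is additive on `⁅N,N⁆`, which is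
generated by commutators). `S` = its image, `dim S ≤ n` by HOM (`R.relIndex ⁅N,N⁆ ∣ R.index ∣ p^n`);
`dim V ≤ n` as `|V| = Q.relIndex N` divides `R.index`.
Case 1 of LAD: `h` = lifts to `N` of a basis of `W`, `H = gen h`. Suppose the hypothesis of BF
fails. `M = ⁅H,H⁆ ⊔ ⁅⁅N,N⁆,N⁆ ⊔ (p-th powers of ⁅N,N⁆) ⊔ R`, then `M ⊓ ⁅N,N⁆` is a proper subgroup of `⁅N,N⁆`, normal in `N`,
with elementary abelian quotient on which `N` acts trivially; a nonzero homomorphism of this quotient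
to `ZMod p` gives `λ ≠ 0` in `YY p N ⁅N,N⁆ R` with `λ = 0` on `⁅H,H⁆`, so `β_λ = 0` on `W × W`, so `β_λ = 0`,
`λ = 0`: contradiction. (Here `M ⊓ ⁅N,N⁆ = ⁅H,H⁆ ⊔ ⁅⁅N,N⁆,N⁆ ⊔ powers ⊔ (R ⊓ ⁅N,N⁆)`, Dedekind.) So BF
gives `⁅N,N⁆ ≤ ⁅H,H⁆ ⊔ R`.
Case 2: `N'` = preimage of `U` in `N`. For `y ∈ F` conjugation by `y` induces an automorphism
`g` of `V` and `β_λ ∘ g = β_(λ ∘ conj y)` is in `S`, so `U` is invariant and `N'` is normal in `F`.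
`N'.relIndex N = |V/U| = p^b`. `T' = {λ | β_λ ∈ T}` has the dimension of `T`; its elements vanish on `R` and on
`⁅x, y⁆`, `x, y ∈ N'`, so (additivity) on `(⁅N',N'⁆ ⊔ R) ⊓ ⁅N,N⁆`. By HOM (for
`YY p N ⁅N,N⁆ (⁅N',N'⁆ ⊔ R)`) `dim T ≤ j` where `(⁅N',N'⁆ ⊔ R).relIndex ⁅N,N⁆ = p^j`. -/
def SpecE5 : Prop :=
  ∀ k : ℕ, 1 ≤ k → ∃ B k' n₀ : ℕ, 1 ≤ k' ∧ ∀ n : ℕ, n₀ ≤ n →
    ∀ (p : ℕ) [Fact p.Prime] (F : Type) [Group F] (N R : Subgroup F), N.Normal → R.Normal →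
    R ≤ N → (∃ m ≤ n, R.index = p ^ m) →
    (∃ (s : ℕ) (h : Fin s → F), s * k ≤ n ∧ (∀ j, h j ∈ N) ∧ ⁅N, N⁆ ≤ ⁅gen h, gen h⁆ ⊔ R) ∨
    (∃ N' : Subgroup F, N'.Normal ∧ R ≤ N' ∧ N' ≤ N ∧ (∃ b ≤ B, N'.relIndex N = p ^ b) ∧
      ∃ j, n ≤ k' * j ∧ (⁅N', N'⁆ ⊔ R).relIndex ⁅N, N⁆ = p ^ j)

/-- E6 (iteration, 150 lines). PROOF. `B, k', n₀` from E5 for `k`; `K₀ = B * (k' + 1)`. Repeat E5
starting from `N₁`. Along the way `c(N) = log_p (R.relIndex ⁅N,N⁆)` satisfies `c(N') + j = c(N)`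
(`|⁅N,N⁆ R : R| = |⁅N,N⁆ R : ⁅N',N'⁆ R| |⁅N',N'⁆ R : R|`), `j ≥ n / k'`, `0 ≤ c ≤ n`: so (for `n ≥ 1`) after at most `k'`
stages the first case holds (induction on the number of stages already made, or on `c`). The index
`N.relIndex N₁` is a product of at most `k'` numbers `p^b`, `b ≤ B`. -/
def SpecE6 : Prop :=
  ∀ k : ℕ, 1 ≤ k → ∃ K₀ n₀ : ℕ, ∀ n : ℕ, n₀ ≤ n →
    ∀ (p : ℕ) [Fact p.Prime] (F : Type) [Group F] (N₁ R : Subgroup F), N₁.Normal → R.Normal →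
    R ≤ N₁ → (∃ m ≤ n, R.index = p ^ m) →
    ∃ (N : Subgroup F) (s : ℕ) (h : Fin s → F), N.Normal ∧ R ≤ N ∧ N ≤ N₁ ∧
      (∃ b ≤ K₀, N.relIndex N₁ = p ^ b) ∧ s * k ≤ n ∧ (∀ j, h j ∈ N) ∧
      ⁅N, N⁆ ≤ ⁅gen h, gen h⁆ ⊔ R

/-- The marked groups: normal subgroups of index `p^n` inside the Frattini subgroup. -/
def Marked (p n : ℕ) (F : Type) [Group F] : Set (Subgroup F) :=
  {R | R.Normal ∧ R ≤ PhiP p ⊤ ∧ R.index = p ^ n}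

/-- `F/R` is nondegenerate (with parameter `1/k`): its derived group is the derived group of a
subgroup generated by at most `n/k` elements. -/
def NonDeg (k n : ℕ) {F : Type} [Group F] (R : Subgroup F) : Prop :=
  ∃ (s : ℕ) (h : Fin s → F), s * k ≤ n ∧ ⁅(⊤ : Subgroup F), ⊤⁆ ≤ ⁅gen h, gen h⁆ ⊔ R

/-- CNTA (80 lines): all normal subgroups of index `p^n` of a `d`-generated group. PROOF. Induction
on `n`: `R' ≠ ⊤` has an `R > R'` as in BOT (for `R' < ⊤`), of index `p^(n-1)`; for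
given `R` there are at most `p^((d+1)(n-1)+d)` such `R'` by NXT (`D = ⊥`) and AY. -/
def SpecCNTA : Prop :=
  ∀ (p : ℕ) [Fact p.Prime] (F : Type) [Group F] (d n : ℕ) (f : Fin d → F), gen f = ⊤ →
    {R : Subgroup F | R.Normal ∧ R.index = p ^ n}.Finite ∧
    {R : Subgroup F | R.Normal ∧ R.index = p ^ n}.ncard ≤
      p ^ ((d + 1) * (n * (n - 1) / 2) + d * n)

/-- The marked groups which have a structure `(N, h)` with `N.index = p^K`, `h : Fin s → N` and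
`R.relIndex ⁅N,N⁆ = p^c`, `(PhiP p N ⊔ R).relIndex N = p^v`. -/
def Str (p n K s c v : ℕ) (F : Type) [Group F] : Set (Subgroup F) :=
  {R | R ∈ Marked p n F ∧ ∃ (N : Subgroup F) (h : Fin s → F), N.Normal ∧ R ≤ N ∧
    N.index = p ^ K ∧ (∀ j, h j ∈ N) ∧ ⁅N, N⁆ ≤ ⁅gen h, gen h⁆ ⊔ R ∧
    R.relIndex ⁅N, N⁆ = p ^ c ∧ (PhiP p N ⊔ R).relIndex N = p ^ v}

/-- STR (200 lines). PROOF. At most `p^((d+1) (K(K-1)/2) + d K)` normal subgroups `N` of index `p^K` (CNTA). For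
given `N` let `R₀ = N ⊓ PhiP p ⊤`: normal, of index `p^m₀` (`N ⊓ PhiP p ⊤ ≥ R`), `|N : R₀| ≤ p^d`. For `R ∈ Str`
with this `N`: `R ≤ R₀`, and `h` is congruent modulo `R₀` to one of at most `p^(d s)` tuples of elements of
`N` (representatives of `N/R₀`). `⁅N,N⁆ ⊓ R₀ = ⁅N,N⁆` and
`(⁅N,N⁆ ⊓ R).relIndex ⁅N,N⁆ = R.relIndex ⁅N,N⁆ = p^c`. So `R ∈ TT p N R₀ h₀ n c v`, and E4
(`n - m₀ ≤ n`). -/
def SpecSTR : Prop :=
  ∀ (p : ℕ) [Fact p.Prime] (F : Type) [Group F] (d n K s c v : ℕ) (f : Fin d → F),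
    gen f = ⊤ → (PhiP p (⊤ : Subgroup F)).index = p ^ d →
    (Str p n K s c v F).Finite ∧ (Str p n K s c v F).ncard ≤
      p ^ (((d + 1) * (K * (K - 1) / 2) + d * K) + d * s + c * B1 d K v + n * B2 d K n s)

/-- DIM (60 lines). PROOF. `n = log |F : N| + log |N : ⁅N,N⁆R| + log |⁅N,N⁆R : R| `, and
`PhiP p N ⊔ R ≥ ⁅N,N⁆ ⊔ R`, so `v ≤ log |N : ⁅N,N⁆R|`: `K + v + c ≤ n`. If
`(⁅N,N⁆ ⊔ R).relIndex ⁅⊤,⊤⁆ = p^j` then `c + j = log |⁅F,F⁆R : R| ≤ n - d` because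
`⁅F,F⁆R ≤ PhiP p ⊤`. -/
def SpecDIM : Prop :=
  ∀ (p : ℕ) [Fact p.Prime] (F : Type) [Group F] (d n K c v j : ℕ) (N R : Subgroup F),
    (PhiP p (⊤ : Subgroup F)).index = p ^ d → R ∈ Marked p n F → N.Normal → R ≤ N →
    N.index = p ^ K → R.relIndex ⁅N, N⁆ = p ^ c → (PhiP p N ⊔ R).relIndex N = p ^ v →
    (⁅N, N⁆ ⊔ R).relIndex ⁅(⊤ : Subgroup F), ⊤⁆ = p ^ j → K + v + c ≤ n ∧ c + j + d ≤ n

/-- NUM (100 lines), the maximisation, for real numbers `y = d/n`, `w`, `C = c/n` etc. PROOF.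
Put `w' = 1 - y - C ≥ w` and `u = y + w'` (`= 1 - C`). `x ≤ w'` (`x ≥ 0`), so
`C (y^2 + x^2)/2 ≤ (1-u)(u^2 - 2 y w')/2 = 2/27 - (u - 2/3)^2 (u + 1/3)/2 - (1-u) y w'`.
Case `w' ≥ η`: if `u ≤ 5/6` the last term is at least `(1/6)(7/50) η`; if `u > 5/6` the square term is at
least `7/432`. Case `w' < η` (only in the second alternative, `η ≤ ε/2`): `|u - 2/3| ≥ ε/2`. -/
def SpecNUM : Prop :=
  ∀ ε : ℝ, 0 < ε → ∃ η : ℝ, 0 < η ∧ ∀ y x C : ℝ, 7/50 ≤ y → 0 ≤ x → 0 ≤ C → y + C ≤ 1 →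
    x + y + C ≤ 1 → (y + C ≤ 1 - ε ∨ ε ≤ |y - 2/3|) → C * (y ^ 2 + x ^ 2) / 2 ≤ 2/27 - η

/-- SMD (60 lines): few generators. PROOF. CNTA: the exponent is at most
`(d + 1) n^2/2 + d n ≤ (7/100) n^3 + 2 n^2`, and `7/100 < 2/27`. -/
def SpecSMD : Prop :=
  ∃ (c : ℝ) (n₀ : ℕ), 0 < c ∧ ∀ n : ℕ, n₀ ≤ n → ∀ (p : ℕ) [Fact p.Prime] (F : Type) [Group F]
    (d : ℕ) (f : Fin d → F), gen f = ⊤ → (d : ℝ) ≤ 7/50 * n →
    (Marked p n F).Finite ∧ ((Marked p n F).ncard : ℝ) ≤ (p : ℝ) ^ ((2/27 - c) * (n : ℝ) ^ 3)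

/-- E7 (250 lines): degenerate groups. PROOF. If `d < 7n/50` use SMD; if `d > n` there is no marked
group. Let `ε₀ = 1/k'` with `k'` from E5 for `k`, `η` from NUM for `ε₀`, `k2 = ⌈4/η⌉`; `K₀` from E6 for
`k2` (with `B` from E5 for `k`: `K ≤ B + K₀`). Let `R` be marked and not `NonDeg k`. E5 for `N = ⊤`: the first case
is excluded, so `N'` with `j ≥ n/k'`; E6 from `N₁ = N'` with `k2` gives `N, h`; `⁅N,N⁆ ≤ ⁅N',N'⁆`, so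
`(⁅N,N⁆ ⊔ R).relIndex ⁅⊤,⊤⁆ = p^j2`, `j2 ≥ j ≥ ε₀ n`. DIM: with
`y = d/n`, `C = c/n`, `x = (v-d)^+/n`: `y + C ≤ 1 - ε₀`, `x + y + C ≤ 1`. STR bounds the number of the `R` with given
`K ≤ K₁ = B + K₀`, `s ≤ n/k2`, `c, v ≤ n` by `p` to the power
`c (d^2 + (v-d)^2)/2 + n^3/k2 + C(K₁) n^2` (all of `d, v, c, s ≤ n`), i.e. at most
`(2/27 - η + η/4) n^3 + C(K₁) n^2`. Sum over at most `(K₁+1)(n+1)^3` quadruples. `c = η/2`. -/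
def SpecE7 : Prop :=
  ∀ k : ℕ, 1 ≤ k → ∃ (c : ℝ) (n₀ : ℕ), 0 < c ∧ ∀ n : ℕ, n₀ ≤ n →
    ∀ (p : ℕ) [Fact p.Prime] (F : Type) [Group F] (d : ℕ) (f : Fin d → F), gen f = ⊤ →
    (PhiP p (⊤ : Subgroup F)).index = p ^ d →
    {R | R ∈ Marked p n F ∧ ¬ NonDeg k n R}.Finite ∧
    ({R | R ∈ Marked p n F ∧ ¬ NonDeg k n R}.ncard : ℝ) ≤ (p : ℝ) ^ ((2/27 - c) * (n : ℝ) ^ 3)

/-- E8 (150 lines): `d` far from `2n/3`. PROOF. As E7, with E6 for `N₁ = ⊤` and the second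
alternative of NUM. -/
def SpecE8 : Prop :=
  ∀ ε : ℝ, 0 < ε → ∃ (c : ℝ) (n₀ : ℕ), 0 < c ∧ ∀ n : ℕ, n₀ ≤ n →
    ∀ (p : ℕ) [Fact p.Prime] (F : Type) [Group F] (d : ℕ) (f : Fin d → F), gen f = ⊤ →
    (PhiP p (⊤ : Subgroup F)).index = p ^ d → ε * n ≤ |(d : ℝ) - 2/3 * n| →
    (Marked p n F).Finite ∧ ((Marked p n F).ncard : ℝ) ≤ (p : ℝ) ^ ((2/27 - c) * (n : ℝ) ^ 3)

end Pool.Agent.Lib.MP4ccb00.E
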